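import Pool.Agent.N510.CT.Odd

set_option autoImplicit false

/-!
# Automorphisms of hyperbolic forms at the norm `3 / √2`

`R` is a ring with involution and `G` a group. Automorphisms of hyperbolic quadratic forms over `RG`
whose support pattern has operator norm at most `3 / √2` (the bound included) are products of such
automorphisms over the group rings of virtually cyclic subgroups. For `R = ℤ` the same holds for the
operator norm of the matrix itself.
-/

namespace Pool.Agent.Results.MP_b6f35e_al.CriticalNormAutomorphisms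

open TH57.Thr TH6.PF Matrix Pool.Agent.N510

/-- `QIso ε α`: `α * hyp * α^*` and the matrix `hyp` of the hyperbolic quadratic form differ by
`χ - ε χ^*`. `VCIso R G (Fin n) ε` is the subgroup generated by the automorphisms of the hyperbolic
form over the rings `RV`, `V` a virtually cyclic subgroup of `G`. `ThinLE α c`: the matrix which
has the coefficient `1` where that of `α` is not zero, and `0` otherwise, acts on `ℓ²(G)^(2n)` with
norm at most `|c|`; `NormLE α c`: the matrix `α` acts on `ℓ²(G)^(2n)` with norm at most `|c|`. -/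
theorem result (c : ℝ) (hc0 : 0 < c) (hc : c ^ 2 ≤ 9 / 2) (ε : ℤ) (hε : ε = 1 ∨ ε = -1) :
    (∀ (R : Type) [Ring R] [StarRing R] (G : Type) [Group G] (n : ℕ)
      (α : (Matrix (Fin n ⊕ Fin n) (Fin n ⊕ Fin n) (MonoidAlgebra R G))ˣ),
      QIso ε α.val → ThinLE α.val c → α ∈ VCIso R G (Fin n) ε) ∧
    ∀ (G : Type) [Group G] (n : ℕ)
      (α : (Matrix (Fin n ⊕ Fin n) (Fin n ⊕ Fin n) (MonoidAlgebra ℤ G))ˣ),
      QIso ε α.val → NormLE α.val c → α ∈ VCIso ℤ G (Fin n) ε :=
  ⟨fun _ _ _ _ _ _ α hα hA => CT.thin_iso2 ε hε α hα c hc0 hc hA,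
    fun _ _ _ α hα hA => CT.odd_core2 ε (by rcases hε with rfl | rfl <;> norm_num) α hα α.val
      (fun _ _ _ => Iff.rfl) c hc0 hc hA⟩

end Pool.Agent.Results.MP_b6f35e_al.CriticalNormAutomorphisms
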