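import Pool.Agent.N510.CT.Sym
import Pool.Agent.N510.LT.UForm

set_option autoImplicit false

/-!
# Quadratic forms over group rings at the norm `3 / √2`

`R` is a ring with involution, `G` a group with an orientation character `w`. Quadratic forms over
`RG` whose symmetrised support pattern has operator norm at most `3 / √2` (the bound included) are
orthogonal sums of forms induced from virtually cyclic subgroups. For every larger bound all
quadratic forms are, after adding hyperbolic planes, simply isometric to a form of this kind with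
coefficients in a given set of additive generators of `R`.
-/

namespace Pool.Agent.Results.MP_b6f35e_al.CriticalNormForms

open TH57.Thr TH6.LF TH6.PF Matrix Pool.Agent.N510

/-- Up to a diagonal change of basis by group elements `u i` the matrix `ψ` is an orthogonal sum of
forms over the group rings of virtually cyclic subgroups `C a`, which are nonsingular if `ψ` is (for
any sign `ε`). -/
def FromVC {R : Type} [Ring R] [StarRing R] {G : Type} [Group G] (w : G →* ℤˣ) {n : ℕ}
    (ψ : Matrix (Fin n) (Fin n) (MonoidAlgebra R G)) : Prop :=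
  ∃ (ρ : Fin n → Fin n) (u : Fin n → G) (C : Fin n → Subgroup G)
    (θ : ∀ a, Matrix {i // ρ i = a} {i // ρ i = a} (MonoidAlgebra R (C a))),
    (∀ a, IsVC (C a)) ∧
    (dmU R u).val * ψ * sadj w (dmU R u).val = blockSum ρ ρ C θ ∧
    ∀ ε : ℤ, IsUnit (ψ + ε • sadj w ψ) →
      ∀ a, IsUnit (θ a + ε • sadj (w.comp (C a).subtype) (θ a))

/-- `S` contains `1`, is closed under negation and generates the additive group of `R`. -/
def Generates {R : Type} [Ring R] (S : Set R) : Prop :=
  1 ∈ S ∧ (∀ s ∈ S, -s ∈ S) ∧ AddSubgroup.closure S = ⊤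

/-- all nonzero coefficients are in `S` -/
def CoeffIn {R : Type} [Ring R] (S : Set R) {G ι κ : Type} (A : Matrix ι κ (MonoidAlgebra R G)) :
    Prop := ∀ i j g, (A i j).coeff g ≠ 0 → (A i j).coeff g ∈ S

/-- `symPat ψ` is the support pattern of `ψ` (nonzero coefficients replaced by `1`) plus its
transpose-conjugate; `NormLE A c`: right multiplication by `A` on `ℓ²` has norm at most `|c|`;
`sadj w` is the adjoint for the involution `∑ r_g g ↦ ∑ w(g) star r_g g⁻¹`. -/
theorem result :
    (∀ c : ℝ, 0 < c → c ^ 2 ≤ 9 / 2 → ∀ (R : Type) [Ring R] [StarRing R] (G : Type) [Group G]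
      (w : G →* ℤˣ) (n : ℕ) (ψ : Matrix (Fin n) (Fin n) (MonoidAlgebra R G)),
      NormLE (symPat ψ) c → FromVC w ψ) ∧
    ∀ c : ℝ, 0 < c → 9 / 2 < c ^ 2 → ∀ (R : Type) [Ring R] [StarRing R] [Nontrivial R]
      (S : Set R), Generates S → ∀ (G : Type) [Group G] (w : G →* ℤˣ) (n : ℕ)
      (ψ : Matrix (Fin n) (Fin n) (MonoidAlgebra R G)),
      ∃ (m : ℕ) (P : (Matrix (Fin n ⊕ (Fin m ⊕ Fin m)) (Fin n ⊕ (Fin m ⊕ Fin m))
        (MonoidAlgebra R G))ˣ) (φ : Matrix (Fin n ⊕ (Fin m ⊕ Fin m)) (Fin n ⊕ (Fin m ⊕ Fin m))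
        (MonoidAlgebra R G)),
        P ∈ commutator (Matrix (Fin n ⊕ (Fin m ⊕ Fin m)) (Fin n ⊕ (Fin m ⊕ Fin m))
          (MonoidAlgebra R G))ˣ ∧
        P.val * fromBlocks ψ 0 0 (fromBlocks 0 1 0 0) * sadj w P.val = φ ∧
        CoeffIn S φ ∧ NormLE (symPat φ) c := by
  refine ⟨fun c hc0 hc R _ _ G _ w n ψ hψ => CT.thin_forms2 w c hc0 hc ψ hψ,
    fun c hc0 hc R _ _ _ S hS G _ w n ψ => ?_⟩
  obtain ⟨m, P, h1, -, h3, h4⟩ := LT.sform_reduction_fin w ⟨hS.1, hS.2.1, hS.2.2⟩ ψ c hc0 hc
  exact ⟨m, P, _, h1, rfl, h3, h4⟩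

end Pool.Agent.Results.MP_b6f35e_al.CriticalNormForms
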