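import Pool.Agent.N431.CE.Fin

/-!
# Graphs of groups with isolated edge groups and the Farrell-Jones conjecture

`C` is any class of groups with the closure properties `ClosedE C` which contains the metabelian groups
and satisfies `AcylF C`: a finitely generated group that acts on a tree without inversions, such that
for some `k` and `n` the pointwise stabilizers of the paths of length at least `k` have at most `n`
elements, is in `C` if the vertex stabilizers are in `C`. All this is known for the class of the groups
whose wreath products with finite groups satisfy the K- and L-theoretic Farrell-Jones conjecture with
coefficients (`AcylF` is a theorem of Knopf); this class also contains the groups `GL_m(ℚ)` (Rüping).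

Let `G` act on a tree with vertex stabilizers in `C`. Suppose that the edge groups are isolated: the
stabilizers of two edges at a vertex are infinite and commensurable, or their intersection has at most
`n` elements. Let `E` be the stabilizer of an edge at the vertex `v`, and suppose that `E` is finite or
satisfies one of the following conditions.

* (1) There is a homomorphism `f` from the commensurator of `E` in `G` to a group in `C` such that `E`
  and `[K, K]` intersect trivially, where `K` is the stabilizer of `v` in the kernel of `f`.
* (2) `E` and `[S, S]` intersect trivially, where `S` is the group of the elements of the vertex group
  `G_v` which centralize subgroups of finite index of `E`; and the abstract commensurator of `E` is in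
  `C`, or `E` has a torsion-free polycyclic subgroup of finite index and `C` contains all `GL_m(ℚ)`.

Then `G` is in `C`.

The condition on `[S, S]` in (2) is often satisfied. If `E` is torsion-free and no element `x ≠ 1` of `E`
is in the commutator subgroup of its centralizer in `G_v`, then `[S, S]` and `E` intersect trivially
(`sufficient` below); this holds if `G_v` is a CAT(0) group or a hyperbolic group, since the translation
length along the axis of `x` is a homomorphism on its centralizer. If all nontrivial conjugacy classes of
`E` are infinite (`E` is icc), then `S` and `E` intersect trivially. So the theorem covers the graphs of
CAT(0) groups with isolated flats and edge groups that are torsion-free and commensurable to the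
stabilizers of maximal flats, for arbitrary inclusions of the edge groups in the two vertex groups, and
the graphs of groups relatively hyperbolic to icc polycyclic (for instance Sol) groups, or to centreless
higher rank lattices, with edge groups of finite index in the peripheral groups. It also covers the
torsion-free groups acting with commensurable stabilizers, the case of `CommensurableStabilizersOnTrees`.

Outline of the proof. Two edges at a vertex are equivalent if they are equal or if their stabilizers are
infinite and commensurable. The classes generated by this relation are the cylinders. The vertices and
the cylinders form a tree on which the finitely generated subgroups of `G` act acylindrically, so that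
only the stabilizers `H` of the cylinders have to be treated. The edge stabilizers of a cylinder are
commensurable, and so `H` is contained in the commensurator of each of them. In case (2) the germs of
conjugations, or the representations of `H` on the rational hulls of the derived series of a
commensurated polycyclic group (`N77.CP`), give a homomorphism from the commensurator of `E` to a group
in `C` the kernel of which centralizes subgroups of finite index of `E`; so (2) implies (1). Now `H` acts
on the subtree spanned by the cylinder, and one can apply the theorem on edge groups which embed in the
first homology of the vertex groups of the kernel of a homomorphism (`N509.TK`).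
-/

set_option autoImplicit false

namespace Pool.Agent.Results.MP_b6f35e_al.IsolatedEdgeGroups

open Subgroup
open Pool.Agent.Y110.FJ (ClosedE)
open Pool.Agent.N509.TX (AcylF)
open Pool.Agent.N431.CE (Es Sv Cn EC)

/-- a sufficient condition for the condition on `[S, S]` in (2) -/
theorem sufficient {G V : Type} [Group G] [MulAction G V] (v u : V)
    (htf : ∀ x ∈ Es G v u, ∀ m : ℕ, m ≠ 0 → x ^ m = 1 → x = 1)
    (hx : ∀ x ∈ Es G v u, x ∈ ⁅Cn x v, Cn x v⁆ → x = 1) :
    Es G v u ⊓ ⁅Sv G v u, Sv G v u⁆ = ⊥ :=
  Pool.Agent.N431.CE.cond v u htf hx

theorem result (C : ∀ (G : Type) [Group G], Prop) (hC : ClosedE C)
    (hM : ∀ (G : Type) [Group G], derivedSeries G 2 = ⊥ → C G) (hA : AcylF C)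
    {G V : Type} [Group G] [MulAction G V] (T : SimpleGraph V) (hT : T.IsTree)
    (hact : ∀ (g : G) (u v : V), T.Adj u v → T.Adj (g • u) (g • v))
    (hV : ∀ v : V, C ↥(MulAction.stabilizer G v)) (n : ℕ)
    (hint : ∀ v a b, T.Adj v a → T.Adj v b → a ≠ b →
      (Infinite (Es G v a) ∧ Infinite (Es G v b) ∧ Commensurable (Es G v a) (Es G v b)) ∨
      ∀ F : Finset G, (∀ g ∈ F, g ∈ Es G v a ∧ g ∈ Es G v b) → F.card ≤ n)
    (hE : ∀ v u : V, T.Adj v u → Infinite (Es G v u) → EC C G v u) : C G :=
  Pool.Agent.N431.CE.main hC hM hA hT hact hV n hint hE

end Pool.Agent.Results.MP_b6f35e_al.IsolatedEdgeGroups
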