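import Pool.Agent.N77.GL.Poly

/-!
# Groups of two by two matrices over polynomial rings and the Farrell–Jones conjecture

`C` is any class of groups with the closure properties `ClosedE C` which contains the solvable
groups, as is known for the class of the groups that satisfy the K- and L-theoretic Farrell–Jones
conjecture with coefficients and finite wreath products.

Let `R` be a commutative domain. Then `GL₂` of the polynomial ring over `R` in any set of variables
is in `C` if and only if `GL₂(R)` is in `C`.

Outline of the proof. Let `K` be the field of fractions of `R`. By Euclid's algorithm and a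
degree argument `GL₂(K[t])` is the increasing union of the amalgams `G_m` of `GL₂(K)` and the group
`B_m` of the upper triangular matrices of degree `≤ m` (Nagao). The reduction modulo `t ^ (m + 1)`
is injective on `GL₂(K)` and on `B_m`, so `G_m` embeds in `F(X) ⋊ P`, where `P` is `GL₂` of the ring
of the truncated polynomials over `K` and acts on the set `X`. The elements of `GL₂(R[t]) ∩ G_m`
are mapped to `F(X) ⋊ P₀` where `P₀` is isomorphic to `GL₂(R[t] / t ^ (m + 1))`, and the latter group
is an iterated extension of `GL₂(R)` by abelian kernels.
-/

set_option autoImplicit false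

namespace Pool.Agent.Results.MP_b6f35e_al.PolynomialRings

open Pool.Agent.Y110.FJ (ClosedE)

theorem result (C : ∀ (G : Type) [Group G], Prop) (hC : ClosedE C)
    (hsol : ∀ (S : Type) [Group S], Group.IsSolvable S → C S)
    (R : Type) [CommRing R] [IsDomain R] (σ : Type) :
    C (GL (Fin 2) (MvPolynomial σ R)) ↔ C (GL (Fin 2) R) :=
  ⟨fun h => hC.base.of_injective _ _ (Pool.Agent.N77.GL.mG (MvPolynomial.C : R →+* MvPolynomial σ R))
      (Pool.Agent.N77.GL.mG_inj _ (MvPolynomial.C_injective σ R)) h,
    fun h => Pool.Agent.N77.GL.poly_all hC hsol R h σ⟩

end Pool.Agent.Results.MP_b6f35e_al.PolynomialRings
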